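import Pool.Agent.W558.WA.Stms
import Pool.Agent.W376.WD.Finb
import Pool.Agent.W216.WD.Gwf

/-! Project AS (helper558), part FIN: there are finitely many bad points. -/

set_option autoImplicit false
set_option linter.unusedVariables false

universe u

open Polynomial

namespace Pool.Agent.W959.WA

open Pool.Agent.W558 Pool.Agent.W376.WD Pool.Agent.W216.WD.Gwf

section alg

variable {k E : Type u} [Field k] [Field E] [Algebra k E] {A O W : Subalgebra k E} {x : E}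

/-- unit multiples generate the same set -/
lemma uo_eq {w : E} (hw : w ∈ O) (hw0 : w ≠ 0) (hwi : w⁻¹ ∈ O) : uo O (w * x) = uo O x := by
  ext z
  constructor
  · rintro ⟨v, hv, hv0, hvi, rfl⟩
    exact ⟨v * w, O.mul_mem hv hw, mul_ne_zero hv0 hw0, by
      rw [mul_inv]; exact O.mul_mem hvi hwi, by ring⟩
  · rintro ⟨v, hv, hv0, hvi, rfl⟩
    refine ⟨v * w⁻¹, O.mul_mem hv hwi, mul_ne_zero hv0 (inv_ne_zero hw0), ?_, ?_⟩
    · rw [mul_inv, inv_inv]; exact O.mul_mem hvi hw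
    · field_simp

/-- the point is contained in the divisor -/
lemma pt_le (hO : IsPt A O) (hW : IsDv A W) (hxO : NU O x)
    (hgen : ∀ a ∈ A, NU W a → ∃ b ∈ A, a = x * b) : O ≤ W := by
  intro z hz
  obtain ⟨a, ha, b, hb, hb0, hbi, rfl⟩ := hO.frac z hz
  refine W.mul_mem (hW.le ha) ?_
  by_contra h
  have h1 : NU W b := by
    by_contra h2
    exact h ((not_NU_iff (hW.le hb)).1 h2).2
  obtain ⟨c, hc, rfl⟩ := hgen b hb h1
  exact not_NU_of_inv hb0 hbi (hxO.mul_right (hO.le hc))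

/-- elements of the point which vanish on the divisor -/
lemma div_of (hO : IsPt A O) (hW : IsDv A W)
    (hgen : ∀ a ∈ A, NU W a → ∃ b ∈ A, a = x * b) {z : E} (hz : z ∈ O) (hzW : NU W z) :
    ∃ c ∈ O, z = c * x := by
  obtain ⟨a, ha, b, hb, hb0, hbi, rfl⟩ := hO.frac z hz
  have h1 : NU W a := by
    have := hzW.mul_right (hW.le hb)
    rwa [inv_mul_cancel_right₀ hb0] at this
  obtain ⟨c, hc, rfl⟩ := hgen a ha h1
  exact ⟨c * b⁻¹, O.mul_mem (hO.le hc) hbi, by ring⟩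

lemma par_unit (hO : IsPt A O) (hW : IsDv A W) (hgen : ∀ a ∈ A, NU W a → ∃ b ∈ A, a = x * b)
    {y : E} (hpar : Par O x y) (hle : O ≤ W) : y ≠ 0 ∧ y⁻¹ ∈ W := by
  rw [← not_NU_iff (hle hpar.pv.mem)]
  intro h
  obtain ⟨c, hc, h1⟩ := div_of hO hW hgen hpar.pv.mem h
  obtain ⟨d, hd, h2⟩ := hpar.reg c hc 1 O.one_mem (by rw [h1]; ring)
  exact hpar.pu.2 d hd h2.symm

/-- a finite set of points -/
lemma fin_pts (hch : ∀ p q : Ideal A, p.IsPrime → q.IsPrime → p ≠ ⊥ → p < q → q.IsMaximal)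
    [IsNoetherianRing A] (hW : IsDv A W) (hx : x ∈ A) (hx0 : x ≠ 0) (hxW : NU W x)
    (hgen : ∀ a ∈ A, NU W a → ∃ b ∈ A, a = x * b) {g : E} (hg : g ∈ A) (hgW : ¬ NU W g) :
    {O | IsPt A O ∧ NU O x ∧ NU O g}.Finite := by
  set J : Ideal A := Ideal.span {⟨x, hx⟩, ⟨g, hg⟩} with hJ
  have hfin : {m : Ideal A | m.IsMaximal ∧ J ≤ m}.Finite := by
    refine (J.finite_minimalPrimes_of_isNoetherianRing A).subset ?_
    rintro m ⟨hm, hc⟩
    refine ⟨⟨hm.isPrime, hc⟩, ?_⟩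
    rintro p ⟨hp, hpc⟩ hpm
    have hxp : (⟨x, hx⟩ : A) ∈ p := hpc (Ideal.subset_span (by simp))
    have hgp : (⟨g, hg⟩ : A) ∈ p := hpc (Ideal.subset_span (by simp))
    have h1 : p.IsMaximal := by
      refine hch hW.pr p hW.isPrime hp ?_ (lt_of_le_of_ne ?_ ?_)
      · intro h
        have h2 : (⟨x, hx⟩ : A) ∈ hW.pr := hxW
        rw [h, Ideal.mem_bot] at h2
        exact hx0 (congrArg Subtype.val h2)
      · intro a ha
        obtain ⟨b, hb, hab⟩ := hgen a a.2 ha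
        have h2 : a = ⟨x, hx⟩ * ⟨b, hb⟩ := Subtype.ext hab
        rw [h2]
        exact p.mul_mem_right _ hxp
      · intro h
        rw [← h] at hgp
        exact hgW hgp
    exact (h1.eq_of_le hm.ne_top hpm).ge
  apply Set.Finite.of_finite_image (f := fun O => {a : A | NU O (a : E)})
  · apply (hfin.image (fun m : Ideal A => (m : Set A))).subset
    rintro _ ⟨O, ⟨hO, h1, h2⟩, rfl⟩
    refine ⟨hO.mx, ⟨hO.isMaximal, ?_⟩, rfl⟩
    rw [hJ, Ideal.span_le]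
    intro a ha
    rcases ha with rfl | ha
    · exact h1
    · rw [Set.mem_singleton_iff] at ha
      rw [ha]
      exact h2
  · rintro O ⟨hO, -⟩ O' ⟨hO', -⟩ h
    apply hO.eq_of_mx hO'
    intro c hc hnu
    have h2 : (⟨c, hc⟩ : A) ∈ {a : A | NU O (a : E)} := hnu
    have h3 : {a : A | NU O (a : E)} = {a : A | NU O' (a : E)} := h
    rw [h3] at h2
    exact h2

end alg

/-- what is needed at the generic point of the divisor -/
lemma good_gen {k E : Type u} [Field k] [Field E] [Algebra k E] {T I : Type} [Finite I] {p : ℕ}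
    (M : LM (⊥ : Subalgebra k E) ⊤ T I) {t : T} (hft : Algebra.FiniteType k (M.A t))
    {W : Subalgebra k E} (hW : IsDv (M.A t) W) {i : I} {f a : E} {N : ℕ}
    (h1 : (f - (a ^ p - a)) * M.x t i ^ N ∈ W)
    (h2 : N = 0 ∨ ∃ θ : Derivation k E E, (∀ b ∈ M.A t, θ b ∈ W) ∧
      (∀ j, (∃ w ∈ W, θ (M.x t j) = w * M.x t j) ∨ (M.x t j)⁻¹ ∈ W) ∧
      θ (f - (a ^ p - a)) * M.x t i ^ N ∈ W ∧ ¬ NU W (θ (f - (a ^ p - a)) * M.x t i ^ N)) :
    ∃ g ∈ M.A t, ¬ NU W g ∧ ∀ O, IsPt (M.A t) O → NU O (M.x t i) → ¬ NU O g →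
      GA p O (bdy M O) f := by
  have hfr : ∀ z ∈ W, ∃ a ∈ M.A t, ∃ b, Un (M.A t) W b ∧ z = a * b⁻¹ := by
    intro z hz
    obtain ⟨a, ha, b, hb, hb0, hbi, h⟩ := hW.frac z hz
    exact ⟨a, ha, b, ⟨hb, hb0, hbi⟩, h⟩
  have hz : ∀ O, IsPt (M.A t) O → NU O (M.x t i) →
      M.x t i ^ N ∈ Submonoid.closure (bdy M O) := by
    intro O hO hx
    have h3 : M.x t i ∈ bdy M O := ⟨t, i, hO.le, hx, mem_uo_self O _⟩
    exact Submonoid.pow_mem _ (Submonoid.subset_closure h3) _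
  obtain ⟨a2, ha2, b2, hb2, e2⟩ := hfr _ h1
  rcases h2 with rfl | ⟨θ, hθ1, hθ2, hθ3, hθ4⟩
  · refine ⟨b2, hb2.1, not_NU_of_inv hb2.2.1 hb2.2.2, fun O hO hx hg => ?_⟩
    have hg' := (not_NU_iff (hO.le hb2.1)).1 hg
    have h3 : f - (a ^ p - a) ∈ O := by
      rw [pow_zero, mul_one] at e2
      rw [e2]
      exact O.mul_mem (hO.le ha2) hg'.2
    refine ⟨a, 1, Submonoid.one_mem _, by rwa [mul_one], Or.inl h3⟩
  · obtain ⟨e, he, heθ⟩ := clear (A := M.A t) (O := W) (M.xA t) (M.x0 t) hfr θ hθ1 hθ2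
    obtain ⟨hu0, hui⟩ := (not_NU_iff hθ3).1 hθ4
    obtain ⟨a1, ha1, b1, hb1, e1⟩ := hfr _ (W.mul_mem (hW.le he.1) hθ3)
    have ha1W : Un (M.A t) W a1 := by
      refine ⟨ha1, ?_, ?_⟩
      · rintro rfl
        rw [zero_mul] at e1
        exact mul_ne_zero he.2.1 hu0 e1
      · have h5 : a1 = e * (θ (f - (a ^ p - a)) * M.x t i ^ N) * b1 := by
          rw [e1, inv_mul_cancel_right₀ hb1.2.1]
        rw [h5, mul_inv, mul_inv]
        exact W.mul_mem (W.mul_mem he.2.2 hui) hb1.2.2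
    have hG : Un (M.A t) W (a1 * b1 * b2) := (ha1W.mul hb1).mul hb2
    refine ⟨a1 * b1 * b2, hG.1, not_NU_of_inv hG.2.1 hG.2.2, fun O hO hx hg => ?_⟩
    obtain ⟨hg0, hgi⟩ := (not_NU_iff (hO.le hG.1)).1 hg
    have ha1i : a1⁻¹ ∈ O := by
      have h6 : a1⁻¹ = (a1 * b1 * b2)⁻¹ * (b1 * b2) := by
        have := ha1W.2.1
        have := hb1.2.1
        have := hb2.2.1
        field_simp
      rw [h6]
      exact O.mul_mem hgi (O.mul_mem (hO.le hb1.1) (hO.le hb2.1))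
    have hb1i : b1⁻¹ ∈ O := by
      have h6 : b1⁻¹ = (a1 * b1 * b2)⁻¹ * (a1 * b2) := by
        have := ha1W.2.1
        have := hb1.2.1
        have := hb2.2.1
        field_simp
      rw [h6]
      exact O.mul_mem hgi (O.mul_mem (hO.le ha1) (hO.le hb2.1))
    have hb2i : b2⁻¹ ∈ O := by
      have h6 : b2⁻¹ = (a1 * b1 * b2)⁻¹ * (a1 * b1) := by
        have := ha1W.2.1
        have := hb1.2.1
        have := hb2.2.1
        field_simp
      rw [h6]
      exact O.mul_mem hgi (O.mul_mem (hO.le ha1) (hO.le hb1.1))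
    have e3 : (e • θ) (f - (a ^ p - a)) * M.x t i ^ N = a1 * b1⁻¹ := by
      rw [← e1, Derivation.smul_apply, smul_eq_mul]
      ring
    refine ⟨a, M.x t i ^ N, hz O hO hx, ?_, Or.inr ⟨e • θ, ThA_sub_Th M hO heθ, ?_, ?_⟩⟩
    · rw [e2]
      exact O.mul_mem (hO.le ha2) hb2i
    · rw [e3]
      exact O.mul_mem (hO.le ha1) hb1i
    · rw [e3]
      refine not_NU_of_inv (mul_ne_zero ha1W.2.1 (inv_ne_zero hb1.2.1)) ?_
      rw [mul_inv, inv_inv]
      exact O.mul_mem ha1i (hO.le hb1.1)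

/-- from the point to the generic point -/
lemma to_gen {k E : Type u} [Field k] [Field E] [Algebra k E] {T I : Type}
    (M : LM (⊥ : Subalgebra k E) ⊤ T I) {t : T} {O W : Subalgebra k E} (hO : IsPt (M.A t) O)
    (hW : IsDv (M.A t) W) {i : I} (hxO : NU O (M.x t i))
    (hgen : ∀ a ∈ M.A t, NU W a → ∃ b ∈ M.A t, a = M.x t i * b) {F v y : E} {N c : ℕ}
    (hy : y ∈ O) (hv : v ∈ O) (hv0 : v ≠ 0) (hvi : v⁻¹ ∈ W)
    (hRs : Rs O (bdy M O) (M.x t i) y (M.x t i ^ N * v) F c) :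
    ∃ θ : Derivation k E E, (∀ b ∈ M.A t, θ b ∈ W) ∧
      (∀ j, (∃ w ∈ W, θ (M.x t j) = w * M.x t j) ∨ (M.x t j)⁻¹ ∈ W) ∧
      θ F * M.x t i ^ N ∈ W ∧ ¬ NU W (θ F * M.x t i ^ N) := by
  have hle := pt_le hO hW hxO hgen
  obtain ⟨hall, θ, hθ, hnot⟩ := hRs
  refine ⟨θ, fun b hb => hle (hθ.1 b (hO.le hb)), fun j => ?_, ?_⟩
  · by_cases h : NU O (M.x t j)
    · left
      obtain ⟨w, hw, h1⟩ := hθ.2 _ ⟨t, j, hO.le, h, mem_uo_self O _⟩
      exact ⟨w, hle hw, h1⟩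
    · right
      exact hle ((not_NU_iff (hO.le (M.xA t j))).1 h).2
  · obtain ⟨α, hα, β, hβ, h1⟩ := hall θ hθ
    have hmem : θ F * (M.x t i ^ N * v) ∈ O := by
      rw [h1]
      exact O.add_mem (O.mul_mem hα hxO.mem) (O.mul_mem hβ (O.pow_mem hy c))
    have hnu : ¬ NU W (θ F * (M.x t i ^ N * v)) := by
      intro h
      obtain ⟨d, hd, h2⟩ := div_of hO hW hgen hmem h
      exact hnot ⟨d, hd, 0, O.zero_mem, by rw [h2, zero_mul, add_zero]⟩
    have e : θ F * M.x t i ^ N = θ F * (M.x t i ^ N * v) * v⁻¹ := by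
      rw [← mul_assoc, mul_inv_cancel_right₀ hv0]
    have hm : θ F * M.x t i ^ N ∈ W := by
      rw [e]
      exact W.mul_mem (hle hmem) hvi
    refine ⟨hm, fun h => hnu ?_⟩
    have := h.mul_right (hle hv)
    rwa [mul_assoc] at this

theorem main (hx : WA_x.{u}) (hty : WD_ty.{u}) (hpo : WA_po.{u}) (hnorm : WD_norm.{u}) :
    WA_fin.{u} := by
  intro p _ k E _ _ _ _ _ htr s f hf
  have h1 : {O | (∃ t, IsPt (s.M.A t) O) ∧ ¬ GA p O (bdy s.M O) f} =
      ⋃ t, {O | IsPt (s.M.A t) O ∧ ¬ GA p O (bdy s.M O) f} := by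
    ext O
    simp
  rw [h1]
  apply Set.finite_iUnion
  intro t
  have hsf := s.sf t
  have hsm := hsf.sm
  have hft : Algebra.FiniteType k (s.M.A t) := inferInstance
  have hN : IsNoetherianRing (s.M.A t) := Algebra.FiniteType.isNoetherianRing k _
  have hsub : {O | IsPt (s.M.A t) O ∧ ¬ GA p O (bdy s.M O) f} ⊆
      ⋃ i, {O | (IsPt (s.M.A t) O ∧ NU O (s.M.x t i)) ∧ ¬ GA p O (bdy s.M O) f} := by
    rintro O ⟨hO, hbad⟩
    rw [Set.mem_iUnion]
    by_contra hcon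
    push Not at hcon
    apply hbad
    have hb : bdy s.M O = ∅ := by
      rw [Set.eq_empty_iff_forall_notMem]
      rintro z ⟨t', i, hA', hnu, -⟩
      exact hcon i ⟨⟨hO, (s.M.nu_iff hA' hO.le i).1 hnu⟩, hbad⟩
    obtain ⟨z, hz, h2⟩ := hpo k E htr s f hf t O hO
    rw [hb, Submonoid.closure_empty, Submonoid.mem_bot] at hz
    rw [hz, mul_one] at h2
    have h3 : f - ((0 : E) ^ p - 0) ∈ O := by
      rw [zero_pow (Fact.out : p.Prime).ne_zero, sub_zero, sub_zero]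
      exact h2
    exact ⟨0, 1, Submonoid.one_mem _, by rwa [mul_one], Or.inl h3⟩
  refine (Set.finite_iUnion fun i => ?_).subset hsub
  by_cases hne : ∃ O0, IsPt (s.M.A t) O0 ∧ NU O0 (s.M.x t i)
  swap
  · refine Set.finite_empty.subset ?_
    rintro O ⟨hO, -⟩
    exact hne ⟨O, hO⟩
  obtain ⟨O, hO, hxO⟩ := hne
  obtain ⟨hW, hxW, hgen⟩ : IsDv (s.M.A t) (s.W i) ∧ NU (s.W i) (s.M.x t i) ∧
      ∀ a ∈ s.M.A t, NU (s.W i) a → ∃ b ∈ s.M.A t, a = s.M.x t i * b := by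
    rcases s.irr t i with h | h
    · exact absurd (hO.le h) (hxO.inv_not_mem (s.M.x0 t i))
    · exact h
  have hle := pt_le hO hW hxO hgen
  have hxb : s.M.x t i ∈ bdy s.M O := ⟨t, i, hO.le, hxO, mem_uo_self O _⟩
  have hP2 : Pt2 O := ⟨_, hsf, hO⟩
  -- parameters with the component as the first coordinate
  have hpar : ∃ y, Par O (s.M.x t i) y ∧ (bdy s.M O = uo O (s.M.x t i) ∨
      bdy s.M O = uo O (s.M.x t i) ∪ uo O y) := by
    have key : ∀ x y, Par O x y → s.M.x t i ∈ uo O x →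
        Par O (s.M.x t i) y ∧ uo O (s.M.x t i) = uo O x := by
      rintro x y hpar ⟨w, hw, hw0, hwi, e⟩
      have h3 := hpar.change hO.loc hw hw0 hwi O.zero_mem (by
        rw [zero_mul, add_zero]
        exact mul_ne_zero hw0 hpar.u0)
      rw [zero_mul, add_zero, ← e] at h3
      refine ⟨h3, ?_⟩
      rw [e]
      exact uo_eq hw hw0 hwi
    obtain ⟨x, y, hpar, hb | hb | hb⟩ := hty k E htr s t O hO
    · rw [hb] at hxb
      exact absurd hxb (Set.notMem_empty _)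
    · rw [hb] at hxb
      obtain ⟨h3, h4⟩ := key x y hpar hxb
      exact ⟨y, h3, Or.inl (hb.trans h4.symm)⟩
    · rw [hb] at hxb
      rcases hxb with hxb | hxb
      · obtain ⟨h3, h4⟩ := key x y hpar hxb
        exact ⟨y, h3, Or.inr (by rw [hb, h4])⟩
      · obtain ⟨h3, h4⟩ := key y x hpar.symm hxb
        exact ⟨x, h3, Or.inr (by rw [hb, h4, Set.union_comm])⟩
  obtain ⟨y, hpar, hb⟩ := hpar
  obtain ⟨hy0, hyi⟩ := par_unit hO hW hgen hpar hle
  have hPo := hpo k E htr s f hf t O hO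
  have hgood : ∃ (a : E) (N : ℕ), (f - (a ^ p - a)) * s.M.x t i ^ N ∈ s.W i ∧
      (N = 0 ∨ ∃ θ : Derivation k E E, (∀ b ∈ s.M.A t, θ b ∈ s.W i) ∧
      (∀ j, (∃ w ∈ s.W i, θ (s.M.x t j) = w * s.M.x t j) ∨ (s.M.x t j)⁻¹ ∈ s.W i) ∧
      θ (f - (a ^ p - a)) * s.M.x t i ^ N ∈ s.W i ∧
      ¬ NU (s.W i) (θ (f - (a ^ p - a)) * s.M.x t i ^ N)) := by
    rcases hb with hb | hb
    · obtain ⟨N, c, a, h2, h3⟩ := (hx p k E htr O (s.M.x t i) y f hP2 hpar).1 (po_N hPo hb)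
      refine ⟨a, N, hle h2, ?_⟩
      rcases Nat.eq_zero_or_pos N with h0 | h0
      · exact Or.inl h0
      · right
        have h4 := h3 h0
        rw [← hb] at h4
        refine to_gen s.M hO hW hxO hgen (v := 1) (y := y) (c := c) hpar.pv.mem O.one_mem
          one_ne_zero ?_ ?_
        · rw [inv_one]; exact (s.W i).one_mem
        · rw [mul_one]; exact h4
    · obtain ⟨N, M', c, d, a, h2, h3, -⟩ := (hx p k E htr O (s.M.x t i) y f hP2 hpar).2
        (po_C hpar.pu.mem hpar.pv.mem hPo hb)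
      have hyM : (y ^ M')⁻¹ ∈ s.W i := by
        rw [← inv_pow]
        exact (s.W i).pow_mem hyi _
      refine ⟨a, N, ?_, ?_⟩
      · have h5 := (s.W i).mul_mem (hle h2) hyM
        have e : (f - (a ^ p - a)) * (s.M.x t i ^ N * y ^ M') * (y ^ M')⁻¹ =
            (f - (a ^ p - a)) * s.M.x t i ^ N := by
          rw [← mul_assoc, mul_inv_cancel_right₀ (pow_ne_zero _ hy0)]
        rwa [e] at h5
      rcases Nat.eq_zero_or_pos N with h0 | h0
      · exact Or.inl h0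
      · right
        have h4 := h3 h0
        rw [← hb] at h4
        exact to_gen s.M hO hW hxO hgen (v := y ^ M') (y := y) (c := c) hpar.pv.mem
          (O.pow_mem hpar.pv.mem _) (pow_ne_zero _ hy0) hyM h4
  obtain ⟨a, N, h2, h3⟩ := hgood
  obtain ⟨g, hg, hgW, hgood⟩ := good_gen s.M hft hW h2 h3
  refine (fin_pts (Pool.Agent.W973.CHAIN.main k E htr (s.M.A t) hsf) hW (s.M.xA t i)
    (s.M.x0 t i) hxW hgen hg hgW).subset ?_
  rintro O' ⟨⟨hO', hx'⟩, hbad⟩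
  refine ⟨hO', hx', ?_⟩
  by_contra h4
  exact hbad (hgood O' hO' hx' h4)

end Pool.Agent.W959.WA
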